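import Pool.Agent.TH602.Lines.Digits
import Pool.Agent.TH602.Lines.Classes
import Mathlib.Combinatorics.Additive.AP.Three.Behrend

/-!
# Three-term progressions: sets closed under operations on the digits, or given by local conditions

Let `b ≥ 3` and `N = b^n`. We consider the sets `A = B ∩ C` of integers in `[0, N)`, where `B` is
given by conditions which involve at most `m` digits each, and `C` is closed under operations of
arity at most `m` applied digit by digit, each of which is idempotent and has an absorbing element.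
If `A` contains no three-term progression then `|A|^m ≤ (b^m - 1)^n`. By Behrend's theorem no such
set has `r_3(N)` elements, as soon as `n > 16 (m b^m)^2 log b`.
-/

set_option autoImplicit false

namespace Pool.Agent.Results.MP_0f71ae_nt.DigitOperations

open Finset

/-- `A` is given by conditions on at most `m` digits in base `b`: a number `x < b^n` belongs to `A`
if for each set `I` of at most `m` places some element of `A` has the same digits as `x` at the
places in `I`. -/
def DigitLocal (b n m : ℕ) (A : Finset ℕ) : Prop :=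
  ∀ x < b ^ n, (∀ I : Finset (Fin n), I.card ≤ m →
    ∃ a ∈ A, ∀ i ∈ I, a / b ^ (i : ℕ) % b = x / b ^ (i : ℕ) % b) → x ∈ A

/-- `A` is closed under `r`-ary operations on the digits in base `b`: for the place `j` there are an
idempotent operation `f j` and an absorbing digit `o j`, that is `f j a = o j` if all but at most
one of the `r` digits `a` are equal to `o j`; applied to the digits of `r` elements of `A` the
operations give the digits of an element of `A`. -/
def DigitClosed (b n r : ℕ) (A : Finset ℕ) : Prop :=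
  ∃ (f : Fin n → (Fin r → ℕ) → ℕ) (o : Fin n → ℕ),
    (∀ j, o j < b) ∧
    (∀ j, ∀ a < b, f j (fun _ => a) = a) ∧
    (∀ j, ∀ (s : Fin r) (a : Fin r → ℕ), (∀ t, a t < b) → (∀ t, t ≠ s → a t = o j) →
      f j a = o j) ∧
    (∀ X : Fin r → ℕ, (∀ s, X s ∈ A) → ∃ y ∈ A, ∀ j : Fin n,
      y / b ^ (j : ℕ) % b = f j (fun s => X s / b ^ (j : ℕ) % b))

lemma val_dig {b n : ℕ} (x : Fin n → Fin b) (j : Fin n) :
    TH602.Digits.val x / b ^ (j : ℕ) % b = (x j : ℕ) := by
  rw [TH602.Digits.val_eq]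
  conv_rhs => rw [← finFunctionFinEquiv.symm_apply_apply x]
  rw [finFunctionFinEquiv_symm_apply_val]

lemma exists_val {b n : ℕ} {a : ℕ} (h : a < b ^ n) :
    ∃ x : Fin n → Fin b, TH602.Digits.val x = a := by
  refine ⟨finFunctionFinEquiv.symm ⟨a, h⟩, ?_⟩
  rw [TH602.Digits.val_eq, Equiv.apply_symm_apply]

/-- the digit vectors of the elements of `A` -/
def vec (b n : ℕ) (A : Finset ℕ) : Finset (Fin n → Fin b) :=
  Finset.univ.filter (fun x => TH602.Digits.val x ∈ A)

lemma mem_vec {b n : ℕ} {A : Finset ℕ} {x : Fin n → Fin b} :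
    x ∈ vec b n A ↔ TH602.Digits.val x ∈ A := by
  simp [vec]

lemma card_vec {b n : ℕ} {A : Finset ℕ} (hA : ∀ a ∈ A, a < b ^ n) :
    (vec b n A).card = A.card := by
  rw [← Finset.card_image_of_injective (vec b n A) (TH602.Digits.val_injective (b := b) (n := n))]
  congr 1
  ext a
  rw [Finset.mem_image]
  constructor
  · rintro ⟨x, hx, rfl⟩
    exact mem_vec.1 hx
  · intro ha
    obtain ⟨x, hx⟩ := exists_val (hA a ha)
    exact ⟨x, mem_vec.2 (by rw [hx]; exact ha), hx⟩

lemma vec_inter {b n : ℕ} (A B : Finset ℕ) : vec b n (A ∩ B) = vec b n A ∩ vec b n B := by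
  ext x
  rw [Finset.mem_inter, mem_vec, mem_vec, mem_vec, Finset.mem_inter]

lemma local_vec {b n m : ℕ} {A : Finset ℕ} (_hA : ∀ a ∈ A, a < b ^ n)
    (h : DigitLocal b n m A) : TH602.Lines.LocalSet m (vec b n A) := by
  intro x hx
  rw [mem_vec]
  apply h _ (TH602.Digits.val_lt x)
  intro I hI
  obtain ⟨a, ha, hax⟩ := hx I hI
  refine ⟨TH602.Digits.val a, mem_vec.1 ha, fun i hi => ?_⟩
  rw [val_dig, val_dig, hax i hi]

lemma closed_vec {b n r : ℕ} {A : Finset ℕ} (hA : ∀ a ∈ A, a < b ^ n)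
    (h : DigitClosed b n r A) : TH602.Lines.Absorbing r (vec b n A) := by
  classical
  obtain ⟨f, o, ho, hid, hab, hcl⟩ := h
  refine ⟨fun j a => if h : f j (fun s => (a s : ℕ)) < b then ⟨_, h⟩ else ⟨o j, ho j⟩,
    fun j => ⟨o j, ho j⟩, ?_, ?_, ?_⟩
  · intro j a
    have h1 : f j (fun _ => (a : ℕ)) = a := hid j a a.2
    have h2 : f j (fun _ => (a : ℕ)) < b := by rw [h1]; exact a.2
    simp only [h2, dif_pos]
    exact Fin.ext h1
  · intro j s a ha
    have h1 : f j (fun t => (a t : ℕ)) = o j :=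
      hab j s _ (fun t => (a t).2) (fun t ht => by rw [ha t ht])
    have h2 : f j (fun t => (a t : ℕ)) < b := by rw [h1]; exact ho j
    simp only [h2, dif_pos]
    exact Fin.ext h1
  · intro X hX
    obtain ⟨y, hy, hyf⟩ := hcl (fun s => TH602.Digits.val (X s)) (fun s => mem_vec.1 (hX s))
    obtain ⟨z, hz⟩ := exists_val (hA y hy)
    have h1 : (fun j => if h : f j (fun s => ((X s j : Fin b) : ℕ)) < b then
        (⟨_, h⟩ : Fin b) else ⟨o j, ho j⟩) = z := by
      funext j
      have h2 : f j (fun s => ((X s j : Fin b) : ℕ)) = (z j : ℕ) := by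
        rw [← val_dig z j, hz, hyf j]
        congr 1
        funext s
        rw [val_dig]
      have h3 : f j (fun s => ((X s j : Fin b) : ℕ)) < b := by rw [h2]; exact (z j).2
      simp only [h3, dif_pos]
      exact Fin.ext h2
    rw [h1, mem_vec, hz]
    exact hy

/-- a full line in a coordinate direction gives a three-term progression -/
lemma not_axisLine {b n : ℕ} (hb : 3 ≤ b) {A : Finset ℕ} (hA : ThreeAPFree (A : Set ℕ)) :
    ¬ TH602.Lines.AxisLine (vec b n A) := by
  classical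
  rintro ⟨x, i, h⟩
  have hval : ∀ v : Fin b, TH602.Digits.val (Function.update x i v) =
      (∑ j ∈ Finset.univ.erase i, (x j : ℕ) * b ^ (j : ℕ)) + (v : ℕ) * b ^ (i : ℕ) := by
    intro v
    rw [TH602.Digits.val, ← Finset.sum_erase_add _ _ (Finset.mem_univ i), Function.update_self]
    congr 1
    apply Finset.sum_congr rfl
    intro j hj
    rw [Function.update_of_ne (Finset.ne_of_mem_erase hj)]
  have h0 := mem_vec.1 (h ⟨0, by omega⟩)
  have h1 := mem_vec.1 (h ⟨1, by omega⟩)
  have h2 := mem_vec.1 (h ⟨2, by omega⟩)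
  have h3 := hA (Finset.mem_coe.2 h0) (Finset.mem_coe.2 h1) (Finset.mem_coe.2 h2) (by
    rw [hval, hval, hval]
    ring)
  rw [hval, hval] at h3
  have h4 : 0 < b ^ (i : ℕ) := Nat.pow_pos (by omega)
  simp only [zero_mul, one_mul, add_zero] at h3
  omega

/-- Let `b ≥ 3`, `m ≥ 1`, `N = b ^ n`, and let `A = B ∩ C ⊆ [0, N)` contain no three-term
progression, where `B` is given by conditions on at most `m` digits, and `C` is everything or
closed under `r`-ary operations on the digits with absorbing digits, `1 ≤ r ≤ m`.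

Then `|A| ^ m ≤ (b ^ m - 1) ^ n`; and if `|A| = r_3(N)`, then `n ≤ 16 (m b ^ m) ^ 2 log b`. -/
theorem result (b m n : ℕ) (hb : 3 ≤ b) (hm : 1 ≤ m) (B C : Finset ℕ)
    (hBn : ∀ a ∈ B, a < b ^ n) (hCn : ∀ a ∈ C, a < b ^ n) (hB : DigitLocal b n m B)
    (hC : C = Finset.range (b ^ n) ∨ ∃ r : ℕ, 1 ≤ r ∧ r ≤ m ∧ DigitClosed b n r C)
    (hA : ThreeAPFree ((B ∩ C : Finset ℕ) : Set ℕ)) :
    (B ∩ C).card ^ m ≤ (b ^ m - 1) ^ n ∧
    ((B ∩ C).card = rothNumberNat (b ^ n) →
      (n : ℝ) ≤ 16 * ((m : ℝ) * (b : ℝ) ^ m) ^ 2 * Real.log b) := by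
  have hq : Fintype.card (Fin b) = b := Fintype.card_fin b
  have hq1 : 1 ≤ Fintype.card (Fin b) := by rw [hq]; omega
  have hline := not_axisLine (n := n) hb hA
  have hBC : ∀ a ∈ B ∩ C, a < b ^ n := fun a ha => hBn a (Finset.mem_inter.1 ha).1
  have h1 : (B ∩ C).card ^ m ≤ (b ^ m - 1) ^ n := by
    rcases hC with rfl | ⟨r, hr, hrm, hC⟩
    · have h2 : B ∩ Finset.range (b ^ n) = B := by
        rw [Finset.inter_eq_left]
        intro a ha
        exact Finset.mem_range.2 (hBn a ha)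
      rw [h2] at hline ⊢
      have h := TH602.Lines.local_card (vec b n B) m hm hq1 (local_vec hBn hB) hline
      rwa [hq, Fintype.card_fin, card_vec hBn] at h
    · rw [vec_inter] at hline
      have h := TH602.Lines.inter_card (vec b n B) (vec b n C) m r hr hrm hq1 (local_vec hBn hB)
        (closed_vec hCn hC) hline
      rwa [hq, Fintype.card_fin, ← vec_inter, card_vec hBC] at h
  refine ⟨h1, fun hcard => ?_⟩
  have hb1 : (1 : ℝ) < b := by exact_mod_cast (show 1 < b by omega)
  have hb0 : (0 : ℝ) < b := by linarith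
  have hlogb : 0 < Real.log b := Real.log_pos hb1
  have hmR : (1 : ℝ) ≤ m := by exact_mod_cast hm
  have h2 := Behrend.roth_lower_bound (N := b ^ n)
  rw [← hcard] at h2
  push_cast at h2
  rw [Real.log_pow] at h2
  set y := √((n : ℝ) * Real.log b) with hy
  have hy0 : 0 ≤ y := Real.sqrt_nonneg _
  have hy2 : y * y = (n : ℝ) * Real.log b := Real.mul_self_sqrt (by positivity)
  have hbm : 1 ≤ b ^ m := Nat.one_le_pow _ _ (by omega)
  -- the two bounds for `|A|^m`
  have h3 : ((b : ℝ) ^ n * Real.exp (-4 * y)) ^ m ≤ ((b : ℝ) ^ m - 1) ^ n := by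
    calc ((b : ℝ) ^ n * Real.exp (-4 * y)) ^ m ≤ ((B ∩ C).card : ℝ) ^ m :=
          pow_le_pow_left₀ (by positivity) h2 m
      _ ≤ ((b : ℝ) ^ m - 1) ^ n := by
          have : (((B ∩ C).card ^ m : ℕ) : ℝ) ≤ (((b ^ m - 1) ^ n : ℕ) : ℝ) := by
            exact_mod_cast h1
          push_cast [hbm] at this
          exact this
  have hbmR : (0 : ℝ) < (b : ℝ) ^ m := by positivity
  have h4 : ((b : ℝ) ^ m - 1) ^ n ≤ ((b : ℝ) ^ m) ^ n * Real.exp (-(n / (b : ℝ) ^ m)) := by
    have h5 : (b : ℝ) ^ m - 1 ≤ (b : ℝ) ^ m * Real.exp (-(1 / (b : ℝ) ^ m)) := by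
      have h6 := Real.add_one_le_exp (-(1 / (b : ℝ) ^ m))
      have h7 := mul_le_mul_of_nonneg_left h6 hbmR.le
      have h8 : (b : ℝ) ^ m * (-(1 / (b : ℝ) ^ m) + 1) = (b : ℝ) ^ m - 1 := by
        field_simp
        ring
      linarith
    have h9 : (0 : ℝ) ≤ (b : ℝ) ^ m - 1 := by
      have : (1 : ℝ) ≤ (b : ℝ) ^ m := one_le_pow₀ hb1.le
      linarith
    calc ((b : ℝ) ^ m - 1) ^ n ≤ ((b : ℝ) ^ m * Real.exp (-(1 / (b : ℝ) ^ m))) ^ n :=
          pow_le_pow_left₀ h9 h5 n
      _ = ((b : ℝ) ^ m) ^ n * Real.exp (-(n / (b : ℝ) ^ m)) := by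
          rw [mul_pow, ← Real.exp_nat_mul]
          congr 2
          ring
  have h5 : Real.exp (-4 * y * m) ≤ Real.exp (-(n / (b : ℝ) ^ m)) := by
    have h6 : ((b : ℝ) ^ m) ^ n * Real.exp (-4 * y * m) ≤
        ((b : ℝ) ^ m) ^ n * Real.exp (-(n / (b : ℝ) ^ m)) := by
      refine le_trans (le_of_eq ?_) (h3.trans h4)
      rw [mul_pow, ← Real.exp_nat_mul, ← pow_mul, ← pow_mul, mul_comm m n]
      congr 2
      ring
    exact le_of_mul_le_mul_left h6 (by positivity)
  rw [Real.exp_le_exp] at h5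
  have h6 : (n : ℝ) ≤ 4 * y * m * (b : ℝ) ^ m := by
    have h7 : (n : ℝ) / (b : ℝ) ^ m ≤ 4 * y * m := by linarith
    rwa [div_le_iff₀ hbmR] at h7
  -- `y² = n log b ≤ 4 y m b^m log b`
  rcases eq_or_lt_of_le hy0 with h0 | h0
  · have h8 : (n : ℝ) ≤ 0 := by
      rw [← h0] at h6
      simpa using h6
    have h9 : 0 ≤ 16 * ((m : ℝ) * (b : ℝ) ^ m) ^ 2 * Real.log b := by positivity
    linarith
  · have h8 : y ≤ 4 * m * (b : ℝ) ^ m * Real.log b := by
      have h9 : y * y ≤ y * (4 * m * (b : ℝ) ^ m * Real.log b) := by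
        rw [hy2]
        calc (n : ℝ) * Real.log b ≤ (4 * y * m * (b : ℝ) ^ m) * Real.log b :=
              mul_le_mul_of_nonneg_right h6 hlogb.le
          _ = _ := by ring
      exact le_of_mul_le_mul_left h9 h0
    calc (n : ℝ) ≤ 4 * y * m * (b : ℝ) ^ m := h6
      _ ≤ 4 * (4 * m * (b : ℝ) ^ m * Real.log b) * m * (b : ℝ) ^ m := by gcongr
      _ = 16 * ((m : ℝ) * (b : ℝ) ^ m) ^ 2 * Real.log b := by ring

end Pool.Agent.Results.MP_0f71ae_nt.DigitOperations
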