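import Pool.Agent.TH602.Lines.Digits
import Mathlib.Combinatorics.Additive.AP.Three.Behrend

/-!
# Three-term progressions: sets with a bounded-width description of their digits

We consider the subsets `A` of `[0, b^n)` which are accepted by a nondeterministic program with `w`
states that reads the `n` digits in base `b` once, from one end to the other (the transitions may
depend on the position). If `A` contains no three-term progression, then
`|A| ≤ w (w r_3(b^L))^⌊n/L⌋ b^(n mod L)` for every `L ≥ 1`: for fixed states at the ends of the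
blocks of `L` digits `A` contains a product of sets of blocks, and each of them is free of
progressions. With Roth's theorem this gives `|A| ≤ K N^(1-δ)`, `N = b^n`, and with Behrend's
theorem the width of the extremal sets for `r_3(b^n)` tends to infinity.
-/

set_option autoImplicit false

namespace Pool.Agent.Results.MP_0f71ae_nt.DigitWidth

open Finset

/-- `A` is a subset of `[0, b^n)` and there is a nondeterministic program with the states
`0, …, w - 1` which accepts exactly the elements of `A`: the `j`-th step from the state `s j` to the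
state `s (j + 1)` is allowed by the relation `step j`, depending on the `j`-th digit `a / b^j % b`
of `a` in base `b`; the first state has to be in `start` and the last one in `accept`. -/
def WidthLE (b n w : ℕ) (A : Finset ℕ) : Prop :=
  ∃ (start accept : Fin w → Prop) (step : ℕ → Fin w → ℕ → Fin w → Prop),
    ∀ a : ℕ, a ∈ A ↔ a < b ^ n ∧ ∃ s : ℕ → Fin w, start (s 0) ∧ accept (s n) ∧
      ∀ j < n, step j (s j) (a / b ^ j % b) (s (j + 1))

theorem card_le {b n w : ℕ} (hb : 1 ≤ b) {A : Finset ℕ} (hw : WidthLE b n w A)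
    (hA : ThreeAPFree (A : Set ℕ)) (L : ℕ) (hL : 1 ≤ L) :
    A.card ≤ w * (w * rothNumberNat (b ^ L)) ^ (n / L) * b ^ (n % L) := by
  classical
  obtain ⟨start, accept, step, hst⟩ := hw
  let A' : Finset (Fin n → Fin b) := Finset.univ.filter (fun x => TH602.Digits.val x ∈ A)
  have himg : A'.image TH602.Digits.val = A := by
    ext a
    simp only [A', Finset.mem_image, Finset.mem_filter, Finset.mem_univ, true_and]
    constructor
    · rintro ⟨x, hx, rfl⟩
      exact hx
    · intro ha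
      have hlt := ((hst a).1 ha).1
      refine ⟨finFunctionFinEquiv.symm ⟨a, hlt⟩, ?_, ?_⟩
      · rw [TH602.Digits.val_eq, Equiv.apply_symm_apply]
        exact ha
      · rw [TH602.Digits.val_eq, Equiv.apply_symm_apply]
  have hcard : A.card = A'.card := by
    conv_lhs => rw [← himg]
    rw [Finset.card_image_of_injective _ TH602.Digits.val_injective]
  have hdig : ∀ (x : Fin n → Fin b) (j : Fin n),
      TH602.Digits.val x / b ^ (j : ℕ) % b = (x j : ℕ) := by
    intro x j
    rw [TH602.Digits.val_eq]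
    conv_rhs => rw [← finFunctionFinEquiv.symm_apply_apply x]
    rw [finFunctionFinEquiv_symm_apply_val]
  rw [hcard]
  refine TH602.Digits.card_le A' start accept step ?_ (by rw [himg]; exact hA) hb L hL
  intro x
  simp only [A', Finset.mem_filter, Finset.mem_univ, true_and]
  rw [hst]
  constructor
  · rintro ⟨_, s, h0, h1, h2⟩
    refine ⟨s, h0, h1, fun j => ?_⟩
    have := h2 j j.2
    rwa [hdig] at this
  · rintro ⟨s, h0, h1, h2⟩
    refine ⟨TH602.Digits.val_lt x, s, h0, h1, fun j hj => ?_⟩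
    have := h2 ⟨j, hj⟩
    rw [← hdig] at this
    exact this

/-- There is a block length `L` with `w r_3(b^L) ≤ b^L / 2` (Roth's theorem). -/
lemma exists_block (b w : ℕ) (hb : 2 ≤ b) :
    ∃ L : ℕ, 1 ≤ L ∧ 2 * (w * rothNumberNat (b ^ L)) ≤ b ^ L := by
  have h := rothNumberNat_isLittleO_id
  rw [Asymptotics.isLittleO_iff] at h
  have h1 := h (show (0 : ℝ) < 1 / (2 * (w + 1)) by positivity)
  rw [Filter.eventually_atTop] at h1
  obtain ⟨N0, hN0⟩ := h1
  refine ⟨N0 + 1, by omega, ?_⟩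
  have h2 : N0 ≤ b ^ (N0 + 1) := by
    have h3 : N0 + 1 < b ^ (N0 + 1) := Nat.lt_pow_self (by omega)
    omega
  have h3 := hN0 _ h2
  rw [RCLike.norm_natCast, RCLike.norm_natCast] at h3
  have h4 : (0 : ℝ) < 2 * (w + 1) := by positivity
  rw [div_mul_eq_mul_div, one_mul, le_div_iff₀ h4] at h3
  have h5 : ((2 * (w * rothNumberNat (b ^ (N0 + 1))) : ℕ) : ℝ) ≤ ((b ^ (N0 + 1) : ℕ) : ℝ) := by
    refine le_trans ?_ h3
    push_cast
    have : (0 : ℝ) ≤ (rothNumberNat (b ^ (N0 + 1)) : ℝ) := Nat.cast_nonneg _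
    nlinarith
  exact_mod_cast h5

lemma two_pow_le (n L : ℕ) (hL : 1 ≤ L) :
    (2 : ℝ) ^ ((n : ℝ) / L) ≤ 2 * (2 : ℝ) ^ (n / L) := by
  have hLR : (0 : ℝ) < L := by exact_mod_cast hL
  have h1 : (n : ℝ) / L ≤ ((n / L + 1 : ℕ) : ℝ) := by
    rw [div_le_iff₀ hLR]
    have h2 : n ≤ (n / L + 1) * L := by
      have := Nat.div_add_mod' n L
      have h3 := Nat.mod_lt n hL
      have h4 : (n / L + 1) * L = n / L * L + L := by ring
      omega
    exact_mod_cast h2
  calc (2 : ℝ) ^ ((n : ℝ) / L) ≤ (2 : ℝ) ^ (((n / L + 1 : ℕ) : ℝ)) :=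
        Real.rpow_le_rpow_of_exponent_le (by norm_num) h1
    _ = 2 * (2 : ℝ) ^ (n / L) := by
        rw [Real.rpow_natCast, pow_succ]
        ring

lemma saving (b w : ℕ) (hb : 2 ≤ b) : ∃ δ K : ℝ, 0 < δ ∧ 0 ≤ K ∧
    ∀ (n : ℕ) (A : Finset ℕ), WidthLE b n w A → ThreeAPFree (A : Set ℕ) →
      (A.card : ℝ) ≤ K * ((b : ℝ) ^ n) ^ (1 - δ) := by
  obtain ⟨L, hL, hw⟩ := exists_block b w hb
  have hb1 : (1 : ℝ) < b := by exact_mod_cast (show 1 < b by omega)
  have hb0 : (0 : ℝ) < b := by linarith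
  have hlogb : 0 < Real.log b := Real.log_pos hb1
  have hLR : (0 : ℝ) < L := by exact_mod_cast hL
  have hlog2 : 0 < Real.log 2 := Real.log_pos (by norm_num)
  refine ⟨Real.log 2 / (L * Real.log b), 2 * w, by positivity, by positivity, ?_⟩
  intro n A hA hfree
  have h1 := card_le (by omega) hA hfree L hL
  -- `2 ^ (n / L) |A| ≤ w b ^ n`
  have h2 : 2 ^ (n / L) * A.card ≤ w * b ^ n := by
    calc 2 ^ (n / L) * A.card
        ≤ 2 ^ (n / L) * (w * (w * rothNumberNat (b ^ L)) ^ (n / L) * b ^ (n % L)) :=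
          Nat.mul_le_mul_left _ h1
      _ = w * (2 * (w * rothNumberNat (b ^ L))) ^ (n / L) * b ^ (n % L) := by
          rw [mul_pow 2]
          ring
      _ ≤ w * (b ^ L) ^ (n / L) * b ^ (n % L) := by gcongr
      _ = w * b ^ n := by
          rw [mul_assoc, ← pow_mul, ← pow_add]
          congr 2
          exact Nat.div_add_mod n L
  have h3 : (2 : ℝ) ^ (n / L) * A.card ≤ w * (b : ℝ) ^ n := by exact_mod_cast h2
  have h4 := two_pow_le n L hL
  have hbn : (0 : ℝ) < (b : ℝ) ^ n := by positivity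
  have h5 : ((b : ℝ) ^ n) ^ (Real.log 2 / (L * Real.log b)) = (2 : ℝ) ^ ((n : ℝ) / L) := by
    rw [Real.rpow_def_of_pos hbn, Real.rpow_def_of_pos (by norm_num : (0 : ℝ) < 2), Real.log_pow]
    congr 1
    field_simp
  rw [Real.rpow_sub hbn, Real.rpow_one, h5, ← mul_div_assoc, le_div_iff₀ (by positivity)]
  have hc : (0 : ℝ) ≤ A.card := Nat.cast_nonneg _
  calc (A.card : ℝ) * (2 : ℝ) ^ ((n : ℝ) / L) ≤ A.card * (2 * (2 : ℝ) ^ (n / L)) := by gcongr
    _ = 2 * ((2 : ℝ) ^ (n / L) * A.card) := by ring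
    _ ≤ 2 * (w * (b : ℝ) ^ n) := by gcongr
    _ = 2 * w * (b : ℝ) ^ n := by ring

/-- Let `b ≥ 2` and `w ≥ 0`; `N = b ^ n`.

(1) Every `A ⊆ [0, N)` of digit width at most `w` without three-term progressions satisfies
`|A| ≤ w (w r_3(b^L)) ^ (n / L) b ^ (n % L)` for all `L ≥ 1`.

(2) There are `δ > 0` and `K`, depending on `b` and `w` only, with `|A| ≤ K N ^ (1 - δ)` for all
such `n` and `A`.

(3) For all large `n` no three-term progression free subset of `[0, N)` with `r_3(N)` elements has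
digit width at most `w`. -/
theorem result (b w : ℕ) (hb : 2 ≤ b) :
    (∀ (n : ℕ) (A : Finset ℕ), WidthLE b n w A → ThreeAPFree (A : Set ℕ) → ∀ L : ℕ, 1 ≤ L →
      A.card ≤ w * (w * rothNumberNat (b ^ L)) ^ (n / L) * b ^ (n % L)) ∧
    (∃ δ K : ℝ, 0 < δ ∧ ∀ (n : ℕ) (A : Finset ℕ), WidthLE b n w A → ThreeAPFree (A : Set ℕ) →
      (A.card : ℝ) ≤ K * ((b : ℝ) ^ n) ^ (1 - δ)) ∧
    (∃ n₀ : ℕ, ∀ n : ℕ, n₀ ≤ n → ∀ A : Finset ℕ, ThreeAPFree (A : Set ℕ) →
      A.card = rothNumberNat (b ^ n) → ¬ WidthLE b n w A) := by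
  obtain ⟨δ, K, hδ, hK, hs⟩ := saving b w hb
  refine ⟨fun n A hA hfree L hL => card_le (by omega) hA hfree L hL, ⟨δ, K, hδ, hs⟩, ?_⟩
  have hb1 : (1 : ℝ) < b := by exact_mod_cast (show 1 < b by omega)
  have hb0 : (0 : ℝ) < b := by linarith
  have hlogb : 0 < Real.log b := Real.log_pos hb1
  -- a large `n`
  obtain ⟨n₀, hn₀⟩ : ∃ n₀ : ℕ, ∀ n : ℕ, n₀ ≤ n →
      Real.log (K + 1) + 4 * √((n : ℝ) * Real.log b) < δ * (n * Real.log b) := by
    have h1 : Filter.Tendsto (fun n : ℕ => √((n : ℝ) * Real.log b)) Filter.atTop Filter.atTop :=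
      Real.tendsto_sqrt_atTop.comp
        (Filter.Tendsto.atTop_mul_const hlogb tendsto_natCast_atTop_atTop)
    have h2 := h1.eventually_gt_atTop ((4 + Real.log (K + 1)) / δ + 1)
    rw [Filter.eventually_atTop] at h2
    obtain ⟨n₀, h3⟩ := h2
    refine ⟨n₀, fun n hn => ?_⟩
    have h4 := h3 n hn
    set y := √((n : ℝ) * Real.log b) with hy
    have hy2 : y * y = (n : ℝ) * Real.log b := Real.mul_self_sqrt (by positivity)
    rw [← hy2]
    have hlogK : 0 ≤ Real.log (K + 1) := Real.log_nonneg (by linarith)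
    have h5 : 0 ≤ (4 + Real.log (K + 1)) / δ := by positivity
    have h6 : 1 < y := by linarith
    have h7 : (4 + Real.log (K + 1)) < δ * y := by
      have h8 : (4 + Real.log (K + 1)) / δ < y := by linarith
      rw [div_lt_iff₀ hδ] at h8
      linarith
    calc Real.log (K + 1) + 4 * y ≤ (4 + Real.log (K + 1)) * y := by nlinarith
      _ < δ * y * y := by
          apply mul_lt_mul_of_pos_right h7
          linarith
      _ = δ * (y * y) := by ring
  refine ⟨n₀, fun n hn A hfree hcard hA => ?_⟩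
  have h1 := hs n A hA hfree
  have h2 := Behrend.roth_lower_bound (N := b ^ n)
  rw [← hcard] at h2
  push_cast at h2
  rw [Real.log_pow] at h2
  have hbn : (0 : ℝ) < (b : ℝ) ^ n := by positivity
  have h3 := h2.trans h1
  rw [Real.rpow_sub hbn, Real.rpow_one, ← mul_div_assoc, le_div_iff₀ (by positivity)] at h3
  have h4 : Real.exp (-4 * √((n : ℝ) * Real.log b)) * ((b : ℝ) ^ n) ^ δ ≤ K := by
    have h5 : (b : ℝ) ^ n * (Real.exp (-4 * √((n : ℝ) * Real.log b)) * ((b : ℝ) ^ n) ^ δ) ≤
        (b : ℝ) ^ n * K := by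
      calc _ = (b : ℝ) ^ n * Real.exp (-4 * √((n : ℝ) * Real.log b)) * ((b : ℝ) ^ n) ^ δ := by ring
        _ ≤ K * (b : ℝ) ^ n := h3
        _ = _ := by ring
    exact le_of_mul_le_mul_left h5 hbn
  rw [Real.rpow_def_of_pos hbn, Real.log_pow, ← Real.exp_add] at h4
  have h5 := hn₀ n hn
  have h6 : Real.log (K + 1) < -4 * √((n : ℝ) * Real.log b) + (n : ℝ) * Real.log b * δ := by
    linarith
  have h7 := Real.exp_lt_exp.2 h6
  rw [Real.exp_log (by linarith)] at h7
  linarith

end Pool.Agent.Results.MP_0f71ae_nt.DigitWidth
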