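import Pool.Agent.TH106.AP3

/-!
# Largest progression-free sets: growth at every scale, sparse sequences and short averages

For `k ≥ 3` let `r k N` be the largest size of a subset of `{1, ..., N}` without arithmetic
progressions of length `k` (`k = 3`: the function `r_3` of the question).

* (1) `r k` grows by a factor `1 + c` between `N` and `2 N` for every large `N` (no exceptional
  scales), and both halves of every progression-free subset of `{1, ..., 2 N}` of almost maximal
  size contain a positive proportion of it.  With `x i = r k (3 ^ i m)`, `y i = r k (2 * 3 ^ i m)`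
  one has `y (i + 1) ≥ 2 y i` and `x (i + 1) ≤ x i + y i`, so if `y j` is close to `x j`, then
  `x 0` is at least about `2 ^ (-j) x j`, while the product inequality
  `r k m * r k M ≤ r k ((2 m - 1) M)` and Behrend's theorem give `x 0 ≤ x j / r k (3 ^ j / 2)`.
* (2) An asymptotic formula for `r k` along a sequence `n i` with `n (i + 1) / n i → 1` gives one
  for all `N`.
* (3) `r k N` is asymptotic to its averages over the windows `(N, N + h N]`, `h N = o(N)`.
-/

set_option autoImplicit false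

open Finset Filter Topology

namespace Pool.Agent.Results.MP_0f71ae_nt.DoublingGrowth

open Pool.Agent.H617R3.AP Pool.Agent.TH106.AP3

open Classical in
theorem result (k : ℕ) (hk : 3 ≤ k) :
    -- (1) growth at every scale
    ((∀ j m : ℕ, 1 ≤ m → (2 : ℝ) ^ j < r k (3 ^ j / 2) →
        (1 + (1 / 2 ^ j - 1 / (r k (3 ^ j / 2) : ℝ))) * r k (3 ^ j * m) ≤
          r k (2 * (3 ^ j * m))) ∧
      ∃ c : ℝ, 0 < c ∧ c ≤ 1 ∧ ∃ N₀ : ℕ, ∀ N : ℕ, N₀ ≤ N →
        (1 + c) * r k N ≤ r k (2 * N) ∧
        ∀ A : Finset ℕ, A ⊆ Icc 1 (2 * N) → APFree k A → (1 - c / 4) * r k (2 * N) ≤ A.card →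
          c / 4 * A.card ≤ (A.filter (fun n => n ≤ N)).card ∧
          c / 4 * A.card ≤ (A.filter (fun n => N < n)).card) ∧
    -- (2) a formula along a sparse sequence is enough
    (∀ n : ℕ → ℕ, Monotone n → Tendsto (fun i => (n (i + 1) : ℝ) / n i) atTop (𝓝 1) →
      ∀ f : ℕ → ℝ, Tendsto (fun i => (r k (n i) : ℝ) / f i) atTop (𝓝 1) →
      ∀ I : ℕ → ℕ, (∀ᶠ N in atTop, n (I N) ≤ N ∧ N < n (I N + 1)) →
        Tendsto (fun N => (r k N : ℝ) / f (I N)) atTop (𝓝 1)) ∧
    -- (3) a formula for short averages is enough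
    (∀ h : ℕ → ℕ, (∀ᶠ N in atTop, 1 ≤ h N) → Tendsto (fun N => (h N : ℝ) / N) atTop (𝓝 0) →
      Tendsto (fun N => ((∑ M ∈ Ioc N (N + h N), (r k M : ℝ)) / h N) / r k N) atTop (𝓝 1)) := by
  refine ⟨⟨fun j m hm hR => chain hk j m hm hR, ?_⟩,
    fun n hn hn1 f hf I hI => sparse hk hn hn1 hf hI, fun h h1 h0 => average hk h1 h0⟩
  obtain ⟨c, hc, hc1, N₀, h⟩ := halves hk
  refine ⟨c, hc, hc1, N₀, fun N hN => ?_⟩
  obtain ⟨h1, h2⟩ := h N hN
  refine ⟨h1, fun A hA hA2 hA3 => ?_⟩
  obtain ⟨h3, h4⟩ := h2 A hA hA2 hA3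
  constructor
  · convert h3
  · convert h4

end Pool.Agent.Results.MP_0f71ae_nt.DoublingGrowth
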