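import Pool.Agent.TH3.AP.Every

/-!
# Largest progression-free sets: growth and concentration at every scale

For `k ≥ 3` let `r k N` be the largest size of a subset of `{1, ..., N}` without arithmetic
progressions of length `k` (`k = 3`: the function `r_3` of the question).  The starting result
`RegularGrowth` describes almost all `N`; here all `N` are treated.

* (1) The product construction: `r k K * r k M ≤ r k ((2 K - 1) M)`.
* (2) Together with Behrend's theorem for `K ≈ N / M` and with subadditivity, the ratio of the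
  densities at `M` and `N` is bounded by functions of `N / M` only, for all `M ≤ N`.
* (3) The relative increment of `r k` from `N` to `N + H` is at most `3 δ exp (4 √(log (1 / δ)))`,
  `δ = H / N`, for all `N`.
* (4) No concentration: progression-free sets have at most the expected number of points in unions
  of progressions of length `l`, up to the factor `exp (4 √(log (N / l)))`, again for all `N`.
* (5) The same conditions for any function `f` asymptotically equal to `r k`, that is, for any answer
  to the question.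
-/

set_option autoImplicit false

open Finset

namespace Pool.Agent.Results.MP_0f71ae_nt.EveryScale

open Pool.Agent.H617R3.AP Pool.Agent.TH3.AP

/-- the density `r k N / N` -/
noncomputable def density (k N : ℕ) : ℝ := (r k N : ℝ) / N

open Classical in
theorem result (k : ℕ) (hk : 3 ≤ k) :
    -- (1) the product construction
    (∀ K M : ℕ, 1 ≤ K → r k K * r k M ≤ r k ((2 * K - 1) * M)) ∧
    -- (2) two scales
    (∀ M N : ℕ, 1 ≤ M → M ≤ N →
      density k M ≤ 3 * Real.exp (4 * √(Real.log ((N : ℝ) / M))) * density k N ∧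
      density k N ≤ (1 + (M : ℝ) / N) * density k M) ∧
    -- (3) increments
    (∀ N H : ℕ, 1 ≤ H → H ≤ N → (r k (N + H) : ℝ) ≤
      (1 + 3 * ((H : ℝ) / N) * Real.exp (4 * √(Real.log ((N : ℝ) / H)))) * r k N) ∧
    -- (4) no concentration on unions of progressions with `l` terms
    (∀ A : Finset ℕ, APFree k A → ∀ T : Finset (ℕ × ℕ), (∀ p ∈ T, 1 ≤ p.2) →
      ∀ l N : ℕ, 1 ≤ l → l ≤ N →
      ((A.filter (fun n => Covered T l n)).card : ℝ) ≤
        3 * (((T.card : ℝ) * l) / N) * Real.exp (4 * √(Real.log ((N : ℝ) / l))) * r k N) ∧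
    -- (5) asymptotic formulas
    (∀ f : ℕ → ℝ, (∀ N, 0 < f N) →
      Filter.Tendsto (fun N => (r k N : ℝ) / f N) Filter.atTop (nhds 1) →
      ∀ ε : ℝ, 0 < ε → ∃ N₀ : ℕ, 1 ≤ N₀ ∧ ∀ M N : ℕ, N₀ ≤ M → M ≤ N →
        f M / M ≤ (3 + ε) * Real.exp (4 * √(Real.log ((N : ℝ) / M))) * (f N / N) ∧
        f N / N ≤ (1 + ε) * (1 + (M : ℝ) / N) * (f M / M) ∧
        f M ≤ (1 + ε) * f N ∧
        f N ≤ (1 + ε) * (1 + 3 * (((N : ℝ) - M) / M) *
          Real.exp (4 * √(Real.log ((M : ℝ) / ((N : ℝ) - M))))) * f M) := by
  refine ⟨fun K M hK => r_mul_r_le hk hK M, ?_, fun N H hH hHN => r_step hk hH hHN,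
    fun A hA T hT l N hl hlN => card_covered_ratio hk hA T hT hl hlN,
    fun f hf0 hf ε hε => formula hk f hf0 hf ε hε⟩
  intro M N hM hMN
  have hM' : (0 : ℝ) < M := by exact_mod_cast hM
  have hN' : (0 : ℝ) < N := by exact_mod_cast (show 0 < N by omega)
  unfold density
  constructor
  · rw [div_le_iff₀ hM']
    refine (r_ratio hk hM hMN).trans (le_of_eq ?_)
    field_simp
  · rw [div_le_iff₀ hN']
    refine (r_le (by omega) N (show 0 < M by omega)).trans (le_of_eq ?_)
    field_simp

end Pool.Agent.Results.MP_0f71ae_nt.EveryScale
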